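import Mathlib
import Pool.Agent.H28.SlowSG

namespace Pool.Agent.Results.MP_890ea4_an.NotMChaotic

open Filter Topology Set Pool.Agent.H28.SlowSG

/-- The lower `m_n`-density. -/
noncomputable def ld (m : ℕ → ℝ) (A : Set ℕ) : ENNReal :=
  liminf (fun n : ℕ => ((A ∩ {j | 1 ≤ j ∧ (j : ℝ) ≤ m n}).encard : ENNReal) / n) atTop

/-- `m_n`-distributional chaos. -/
def DC {X : Type} [NormedAddCommGroup X] [NormedSpace ℝ X] (T : X →L[ℝ] X) (m : ℕ → ℝ) : Prop :=
  ∃ S : Set X, ¬ S.Countable ∧ ∃ σ > 0, ∀ ε > 0, ∀ x ∈ S, ∀ y ∈ S, x ≠ y →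
    ld m {j | dist ((T ^ j) x) ((T ^ j) y) < σ} = 0 ∧
    ld m {j | ε ≤ dist ((T ^ j) x) ((T ^ j) y)} = 0

/-- The class `R` (sequences indexed by the positive integers). -/
def InR (m : ℕ → ℝ) : Prop :=
  StrictMonoOn m (Ici 1) ∧ (∀ n, 1 ≤ n → 1 ≤ m n) ∧ ∃ c > 0, ∀ᶠ n : ℕ in atTop, c ≤ m n / n

theorem zero (A : Set ℕ) (R : ℕ → ℕ) (hR : ∀ a, 1 ≤ R a)
    (h : ∀ᶠ a : ℕ in atTop, ∀ t ∈ A, (t : ℝ) ≤ (a + 1) * R a + 1 → (t : ℝ) ≤ R a) :
    ld (fun n => n) A = 0 := by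
  refine le_antisymm (ENNReal.le_of_forall_pos_le_add fun ε hε _ => ?_) zero_le
  rw [zero_add]
  refine liminf_le_of_frequently_le' (frequently_atTop.2 fun b => ?_)
  have hε' : (0 : ℝ) < ε := hε
  obtain ⟨a, h1, h2, h3⟩ := (h.and ((eventually_ge_atTop b).and
    (tendsto_natCast_atTop_atTop.eventually_ge_atTop (1 / (ε : ℝ))))).exists
  have hr : (1 : ℝ) ≤ R a := by exact_mod_cast hR a
  have ha : (0 : ℝ) ≤ a := by positivity
  refine ⟨(a + 1) * R a, by nlinarith [hR a], ENNReal.div_le_of_le_mul ?_⟩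
  have h4 : (A ∩ {j | 1 ≤ j ∧ (j : ℝ) ≤ (((a + 1) * R a : ℕ) : ℝ)}).encard ≤ (R a : ℕ∞) := by
    refine (encard_le_encard (t := (Finset.Icc 1 (R a) : Set ℕ)) fun t ht => ?_).trans ?_
    · have h5 := ht.2.2
      push_cast at h5
      have : t ≤ R a := by exact_mod_cast h1 t ht.1 (by linarith)
      simpa using ⟨ht.2.1, this⟩
    · rw [encard_coe_eq_coe_finsetCard]; simp
  refine (ENat.toENNReal_le.2 h4).trans ?_
  rw [ENat.toENNReal_coe, ← ENNReal.ofReal_natCast, ← ENNReal.ofReal_natCast,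
    ← ENNReal.ofReal_coe_nnreal, ← ENNReal.ofReal_mul hε'.le]
  rw [div_le_iff₀ hε'] at h3
  push_cast
  exact ENNReal.ofReal_le_ofReal (by nlinarith)

theorem result : ∃ (X : Type) (_ : NormedAddCommGroup X) (_ : NormedSpace ℝ X)
    (_ : CompleteSpace X) (T : X →L[ℝ] X) (m : ℕ → ℝ),
    (∃ X0 : Submodule ℝ X, Dense (X0 : Set X) ∧
      ∀ x ∈ X0, Tendsto (fun n => (T ^ n) x) atTop (𝓝 0)) ∧
    DC T (fun n => n) ∧ InR m ∧ ¬ DC T m := by
  obtain ⟨X, i1, i2, i3, i4, T, z, h0, h1, h2, ⟨X0, h3, h3'⟩, h4, h5, h6⟩ := core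
  have hP : ∀ a, 1 ≤ P a := fun a => P_mono.monotone (Nat.zero_le a)
  have hQ : ∀ a, 1 ≤ Q a := fun a => Nat.mul_pos (by unfold ex; omega) (by omega)
  have hT : ∀ n : ℕ, T 1 ^ n = T n := fun n => by
    induction n with
    | zero => simp [h0]
    | succ n ih => rw [pow_succ, ih, ← h1 _ _ (by positivity) zero_le_one]; simp
  refine ⟨X, i1, i2, i3, T 1, fun n => P n, ⟨X0, h3, fun x hx => ?_⟩,
    ⟨range fun c : ℝ => c • z, fun hc => ?_, 1, one_pos, ?_⟩,
    ⟨fun s _ t _ hst => by simpa using P_mono hst, fun n _ => by simpa using hP n,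
    1, one_pos, ?_⟩, ?_⟩
  · simp only [hT]
    exact (h3' x hx).comp tendsto_natCast_atTop_atTop
  · have hz : z ≠ 0 := by
      rintro rfl
      have := h6 0 (Q 0 + 1) (by linarith) (by simp)
      norm_num at this
    have := hc.preimage_of_injOn (f := fun c : ℝ => c • z) (smul_left_injective ℝ hz).injOn
    rw [preimage_range] at this
    exact not_countable_univ this
  · rintro ε hε _ ⟨c, rfl⟩ _ ⟨d, rfl⟩ hcd
    have hne : 0 < |c - d| := abs_pos.2 (sub_ne_zero.2 fun h => hcd (by rw [h]))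
    have e : ∀ t, dist (T t (c • z)) (T t (d • z)) = |c - d| * ‖T t z‖ := fun t => by
      rw [dist_eq_norm, ← map_sub, ← sub_smul, map_smul, norm_smul, Real.norm_eq_abs]
    simp only [hT, e]
    refine ⟨zero _ Q hQ ?_, zero _ P hP ?_⟩
    · filter_upwards [(tendsto_pow_atTop_atTop_of_one_lt (one_lt_two (α := ℝ))).eventually_ge_atTop
        (1 / |c - d|)] with a ha t ht h
      rw [div_le_iff₀ hne] at ha
      exact le_of_not_gt fun h' => by nlinarith [h6 a t h' h, show _ * ‖T t z‖ < 1 from ht]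
    · filter_upwards [(tendsto_pow_atTop_nhds_zero_of_lt_one (by norm_num : (0 : ℝ) ≤ 1 / 2)
        (by norm_num)).eventually_lt_const (div_pos hε hne)] with a ha t ht h
      rw [lt_div_iff₀ hne] at ha
      exact le_of_not_gt fun h' => by nlinarith [h5 a t h'.le h, show ε ≤ _ * ‖T t z‖ from ht]
  · filter_upwards [eventually_gt_atTop 0] with n hn
    rw [le_div_iff₀ (by exact_mod_cast hn), one_mul]
    exact_mod_cast P_mono.id_le n
  · rintro ⟨S, hS, σ, hσ, h⟩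
    obtain ⟨x, hx, y, hy, hxy, hd⟩ := close S hS _ (half_pos hσ)
    have h7 := (h 1 one_pos x hx y hy hxy).1
    refine absurd (le_of_le_of_eq (le_liminf_of_le (a := 1) (by isBoundedDefault) ?_) h7) (by simp)
    filter_upwards [eventually_gt_atTop 0] with n hn
    rw [ENNReal.le_div_iff_mul_le (Or.inl (by simpa using hn.ne')) (Or.inl (by simp)), one_mul,
      ← ENat.toENNReal_coe, ENat.toENNReal_le]
    refine le_trans ?_ (encard_le_encard (s := P '' (Finset.range n : Set ℕ)) ?_)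
    · rw [P_mono.injective.encard_image, encard_coe_eq_coe_finsetCard]; simp
    · rintro _ ⟨a, ha, rfl⟩
      refine ⟨?_, hP a, by exact_mod_cast P_mono.monotone (by simpa using ha : a < n).le⟩
      rw [mem_setOf_eq, hT, dist_eq_norm, ← map_sub]
      linarith [h4 a (P a) le_rfl (by linarith) (x - y)]

end Pool.Agent.Results.MP_890ea4_an.NotMChaotic
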